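import Pool.Agent.H86.TC.Char

/-!
# Being `T`-characterized is not transitive: compact metrizable counterexamples

For every `m ≥ 2` there are a compact metrizable abelian group `X` of exponent dividing `m²` and a closed
subgroup `X₁` of it such that `0` is `T`-characterized in `X₁`, `X₁` is `T`-characterized in `X`, `X₁` is
dually embedded in `X`, but `0` is not `T`-characterized in `X`.
-/

namespace Pool.Agent.Results.MP_24a371_gt.CompactCounterexamples

open Filter Topology
open Pool.Agent.H86.TC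

/-- the compact group `ℤ/m² × (ℤ/m)^ℕ × (ℤ/m)^ℕ` -/
abbrev XX (m : ℕ) : Type := ZMod (m ^ 2) × (ℕ → ZMod m) × (ℕ → ZMod m)

/-- the closed subgroup `m(ℤ/m²) × (ℤ/m)^ℕ × 0` -/
def X1 (m : ℕ) : AddSubgroup (XX m) where
  carrier := {x | m • x.1 = 0 ∧ x.2.2 = 0}
  zero_mem' := ⟨smul_zero _, rfl⟩
  add_mem' := by
    rintro a b ⟨h1, h2⟩ ⟨h3, h4⟩
    exact ⟨by rw [Prod.fst_add, smul_add, h1, h3, add_zero],
      by rw [Prod.snd_add, Prod.snd_add, h2, h4, add_zero]⟩
  neg_mem' := by
    rintro a ⟨h1, h2⟩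
    exact ⟨by rw [Prod.fst_neg, smul_neg, h1, neg_zero],
      by rw [Prod.snd_neg, Prod.snd_neg, h2, neg_zero]⟩

theorem mem_X1 {m : ℕ} (x : XX m) : x ∈ X1 m ↔ m • x.1 = 0 ∧ x.2.2 = 0 := Iff.rfl

variable {m : ℕ} [NeZero m]

set_option linter.unusedSectionVars false

theorem continuous_toAC (n : ℕ) [NeZero n] :
    Continuous (ZMod.toAddCircle : ZMod n → AddCircle (1 : ℝ)) :=
  continuous_of_discreteTopology

/-- the character given by the first coordinate -/
noncomputable def cA (m : ℕ) [NeZero m] : Dual (XX m) where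
  toAddMonoidHom := (ZMod.toAddCircle (N := m ^ 2)).comp (AddMonoidHom.fst _ _)
  continuous_toFun := (continuous_toAC (m ^ 2)).comp continuous_fst

/-- the characters given by the coordinates of the second component -/
noncomputable def cX (m : ℕ) [NeZero m] (j : ℕ) : Dual (XX m) where
  toAddMonoidHom := (ZMod.toAddCircle (N := m)).comp
    ((Pi.evalAddMonoidHom _ j).comp ((AddMonoidHom.fst _ _).comp (AddMonoidHom.snd _ _)))
  continuous_toFun := (continuous_toAC m).comp
    ((continuous_apply j).comp (continuous_fst.comp continuous_snd))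

/-- the characters given by the coordinates of the third component -/
noncomputable def cY (m : ℕ) [NeZero m] (j : ℕ) : Dual (XX m) where
  toAddMonoidHom := (ZMod.toAddCircle (N := m)).comp
    ((Pi.evalAddMonoidHom _ j).comp ((AddMonoidHom.snd _ _).comp (AddMonoidHom.snd _ _)))
  continuous_toFun := (continuous_toAC m).comp
    ((continuous_apply j).comp (continuous_snd.comp continuous_snd))

theorem cA_apply (x : XX m) : cA m x = ZMod.toAddCircle x.1 := rfl
theorem cX_apply (j : ℕ) (x : XX m) : cX m j x = ZMod.toAddCircle (x.2.1 j) := rfl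
theorem cY_apply (j : ℕ) (x : XX m) : cY m j x = ZMod.toAddCircle (x.2.2 j) := rfl

theorem order_one : addOrderOf (ZMod.toAddCircle (1 : ZMod m)) = m := by
  rw [addOrderOf_injective _ (ZMod.toAddCircle_injective m), ZMod.addOrderOf_one]

theorem order_m : addOrderOf (ZMod.toAddCircle ((m : ℕ) : ZMod (m ^ 2))) = m := by
  have hm := NeZero.pos m
  rw [addOrderOf_injective _ (ZMod.toAddCircle_injective (m ^ 2)),
    ZMod.addOrderOf_coe _ (by positivity)]
  rw [pow_two, Nat.gcd_eq_right (Dvd.intro _ rfl)]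
  exact Nat.mul_div_cancel _ hm

theorem nsmul_m_fst (x : XX m) : m • (m • x.1) = 0 := by
  rw [smul_smul, ← pow_two, nsmul_eq_mul]
  have : ((m ^ 2 : ℕ) : ZMod (m ^ 2)) = 0 := ZMod.natCast_self _
  rw [this, zero_mul]

theorem nsmul_zmod (a : ZMod m) : m • a = 0 := by
  rw [nsmul_eq_mul, ZMod.natCast_self, zero_mul]

/-- the characters which define `X1` -/
noncomputable def d2 (m : ℕ) [NeZero m] : ℕ → Dual (XX m)
  | 0 => m • cA m
  | j + 1 => cY m j

theorem tchar12 (hm : 2 ≤ m) : TCharacterized (X1 m) := by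
  have h0 : ∀ x : XX m, d2 m 0 x = ZMod.toAddCircle (m • x.1) := fun x => by
    rw [d2, nsmul_apply, cA_apply, map_nsmul]
  have h1 : ∀ (j : ℕ) (x : XX m), d2 m (j + 1) x = ZMod.toAddCircle (x.2.2 j) := fun j x => rfl
  refine tCharacterized_of_dual hm (d2 m) ?_
    (fun i => match i with
      | 0 => (1, 0, 0)
      | i + 1 => (0, 0, Pi.single i 1)) ?_ ?_ _ ?_
  · intro j
    ext x
    rw [nsmul_apply]
    cases j with
    | zero => rw [h0, ← map_nsmul, nsmul_m_fst, map_zero]; rfl
    | succ j => rw [h1, ← map_nsmul, nsmul_zmod, map_zero]; rfl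
  · intro i j hij
    cases j with
    | zero =>
      cases i with
      | zero => exact absurd rfl hij
      | succ i => rw [h0]; simp
    | succ j =>
      cases i with
      | zero => rw [h1]; simp
      | succ i =>
        rw [h1]
        have : (Pi.single i (1 : ZMod m) : ℕ → ZMod m) j = 0 :=
          Pi.single_eq_of_ne (by omega) _
        simp [this]
  · intro j
    cases j with
    | zero =>
      rw [h0]
      have : m • ((1 : ZMod (m ^ 2)), (0 : ℕ → ZMod m), (0 : ℕ → ZMod m)).1 =
        ((m : ℕ) : ZMod (m ^ 2)) := by simp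
      rw [this]
      exact order_m
    | succ j =>
      rw [h1]
      simp [order_one]
  · intro x
    rw [mem_X1]
    constructor
    · rintro ⟨ha, hb⟩ j
      cases j with
      | zero => rw [h0, ha, map_zero]
      | succ j => rw [h1, hb]; simp
    · intro h
      refine ⟨?_, ?_⟩
      · have := h 0
        rwa [h0, ZMod.toAddCircle_eq_zero] at this
      · ext j
        have := h (j + 1)
        rw [h1, ZMod.toAddCircle_eq_zero] at this
        simp [this]

/-- restriction of characters -/
def res {m : ℕ} (χ : Dual (XX m)) : Dual (X1 m) where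
  toAddMonoidHom := χ.toAddMonoidHom.comp (X1 m).subtype
  continuous_toFun := χ.continuous_toFun.comp continuous_subtype_val

theorem res_apply {m : ℕ} (χ : Dual (XX m)) (x : X1 m) : res χ x = χ (x : XX m) := rfl

/-- the characters of `X1` which separate its points -/
noncomputable def d1 (m : ℕ) [NeZero m] : ℕ → Dual (X1 m)
  | 0 => res (cA m)
  | j + 1 => res (cX m j)

theorem tchar01 (hm : 2 ≤ m) : TCharacterized (⊥ : AddSubgroup (X1 m)) := by
  have h0 : ∀ x : X1 m, d1 m 0 x = ZMod.toAddCircle (x : XX m).1 := fun x => rfl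
  have h1 : ∀ (j : ℕ) (x : X1 m), d1 m (j + 1) x = ZMod.toAddCircle ((x : XX m).2.1 j) :=
    fun j x => rfl
  have hmm : m • ((m : ℕ) : ZMod (m ^ 2)) = 0 := by
    rw [nsmul_eq_mul, ← Nat.cast_mul, ← pow_two]
    exact ZMod.natCast_self _
  refine tCharacterized_of_dual hm (d1 m) ?_
    (fun i => match i with
      | 0 => ⟨(((m : ℕ) : ZMod (m ^ 2)), 0, 0), hmm, rfl⟩
      | i + 1 => ⟨(0, Pi.single i 1, 0), smul_zero _, rfl⟩) ?_ ?_ _ ?_
  · intro j
    ext x
    rw [nsmul_apply]
    cases j with
    | zero => rw [h0, ← map_nsmul, ((mem_X1 _).mp x.2).1, map_zero]; rfl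
    | succ j => rw [h1, ← map_nsmul, nsmul_zmod, map_zero]; rfl
  · intro i j hij
    cases j with
    | zero =>
      cases i with
      | zero => exact absurd rfl hij
      | succ i => rw [h0]; simp
    | succ j =>
      cases i with
      | zero => rw [h1]; simp
      | succ i =>
        rw [h1]
        have : (Pi.single i (1 : ZMod m) : ℕ → ZMod m) j = 0 :=
          Pi.single_eq_of_ne (by omega) _
        simp [this]
  · intro j
    cases j with
    | zero =>
      rw [h0]
      exact order_m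
    | succ j =>
      rw [h1]
      simp [order_one]
  · intro x
    rw [AddSubgroup.mem_bot]
    constructor
    · rintro rfl j
      exact map_zero _
    · intro h
      have e1 : (x : XX m).1 = 0 := by
        have := h 0
        rwa [h0, ZMod.toAddCircle_eq_zero] at this
      have e2 : (x : XX m).2.1 = 0 := by
        ext j
        have := h (j + 1)
        rw [h1, ZMod.toAddCircle_eq_zero] at this
        simp [this]
      have e3 : (x : XX m).2.2 = 0 := ((mem_X1 _).mp x.2).2
      exact Subtype.ext (Prod.ext e1 (Prod.ext e2 e3))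

/-- the generator of the first factor -/
def g1 (m : ℕ) : XX m := (1, 0, 0)

theorem nsmul_g1 (k : ℕ) : k • g1 m = ((k : ZMod (m ^ 2)), 0, 0) := by
  simp [g1]

theorem nsmul_eq (x : XX m) : m • x = (x.1.val * m) • g1 m := by
  have : NeZero (m ^ 2) := ⟨pow_ne_zero 2 (NeZero.ne m)⟩
  rw [nsmul_g1]
  refine Prod.ext ?_ (Prod.ext ?_ ?_)
  · change m • x.1 = _
    rw [nsmul_eq_mul, Nat.cast_mul, ZMod.natCast_zmod_val, mul_comm]
  · change m • x.2.1 = 0
    ext j
    exact nsmul_zmod _
  · change m • x.2.2 = 0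
    ext j
    exact nsmul_zmod _

theorem not_tchar02 (hm : 2 ≤ m) : ¬ TCharacterized (⊥ : AddSubgroup (XX m)) := by
  rintro ⟨w, hw, hH⟩
  have hfin : {g : Dual (XX m) | ∃ w' : Dual (XX m), g = m • w'}.Finite := by
    have h1 : {u : AddCircle (1 : ℝ) | (m ^ 2) • u = 0}.Finite :=
      AddCircle.finite_torsion (1 : ℝ) (by positivity)
    refine Set.Finite.of_finite_image (f := fun g : Dual (XX m) => g (g1 m)) (h1.subset ?_) ?_
    · rintro _ ⟨g, _, rfl⟩
      change (m ^ 2) • g (g1 m) = 0
      rw [← map_nsmul, nsmul_g1, ZMod.natCast_self]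
      exact map_zero g
    · rintro g ⟨w1, rfl⟩ g' ⟨w2, rfl⟩ h
      have h' : (m • w1 : Dual (XX m)) (g1 m) = (m • w2 : Dual _) (g1 m) := h
      rw [nsmul_apply, nsmul_apply] at h'
      ext x
      rw [nsmul_apply, nsmul_apply, ← map_nsmul, ← map_nsmul, nsmul_eq, mul_smul, map_nsmul,
        map_nsmul, map_nsmul, map_nsmul, h']
  have h2 := hw.eventually_nsmul_eq_zero m _ hfin (fun n => ⟨w n, rfl⟩)
  have h3 : m • g1 m ∈ ((⊥ : AddSubgroup (XX m)) : Set (XX m)) := by
    rw [hH]
    apply tendsto_nhds_of_eventually_eq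
    filter_upwards [h2] with n hn
    have : (m • w n : Dual (XX m)) (g1 m) = 0 := by rw [hn]; rfl
    rw [nsmul_apply] at this
    rw [map_nsmul, this]
  have h4 : m • g1 m = 0 := by simpa using h3
  rw [nsmul_g1] at h4
  have h5 : ((m : ℕ) : ZMod (m ^ 2)) = 0 := congrArg Prod.fst h4
  rw [ZMod.natCast_eq_zero_iff] at h5
  have h6 := Nat.le_of_dvd (by omega) h5
  nlinarith

theorem duallyEmbedded (hm : 2 ≤ m) : DuallyEmbedded (X1 m) := by
  have hm0 : 0 < m := by omega
  have : NeZero (m ^ 2) := ⟨pow_ne_zero 2 (NeZero.ne m)⟩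
  intro χ
  have hmm : m • ((m : ℕ) : ZMod (m ^ 2)) = 0 := by
    rw [nsmul_eq_mul, ← Nat.cast_mul, ← pow_two]
    exact ZMod.natCast_self _
  let z : X1 m := ⟨(((m : ℕ) : ZMod (m ^ 2)), 0, 0), hmm, rfl⟩
  obtain ⟨s, hs⟩ : ∃ s : AddCircle (1 : ℝ), m • s = χ z := by
    refine ⟨DivisibleBy.div (χ z) (m : ℤ), ?_⟩
    have := DivisibleBy.div_cancel (χ z) (show (m : ℤ) ≠ 0 by exact_mod_cast hm0.ne')
    rw [← natCast_zsmul]
    exact this
  have hs2 : (m ^ 2) • s = 0 := by
    rw [pow_two, mul_smul, hs, ← map_nsmul]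
    have : m • z = 0 := by
      apply Subtype.ext
      change m • ((((m : ℕ) : ZMod (m ^ 2)), 0, 0) : XX m) = 0
      exact Prod.ext hmm (smul_zero m)
    rw [this, map_zero]
  let j : (ℕ → ZMod m) →+ X1 m :=
    { toFun := fun x => ⟨(0, x, 0), smul_zero _, rfl⟩
      map_zero' := rfl
      map_add' := fun x y => by
        apply Subtype.ext
        change ((0, x + y, 0) : XX m) = (0, x, 0) + (0, y, 0)
        simp }
  have hj : Continuous j := by
    refine Continuous.subtype_mk ?_ _
    fun_prop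
  let ψ : Dual (XX m) :=
    { toAddMonoidHom := (zhom (m ^ 2) s hs2).comp (AddMonoidHom.fst _ _) +
        (χ.toAddMonoidHom.comp j).comp ((AddMonoidHom.fst _ _).comp (AddMonoidHom.snd _ _))
      continuous_toFun := by
        have c1 : Continuous (fun x : XX m => zhom (m ^ 2) s hs2 x.1) :=
          continuous_of_discreteTopology.comp continuous_fst
        have c2 : Continuous (fun x : XX m => χ (j x.2.1)) :=
          χ.continuous_toFun.comp (hj.comp (continuous_fst.comp continuous_snd))
        exact c1.add c2 }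
  have hψ : ∀ x : XX m, ψ x = zhom (m ^ 2) s hs2 x.1 + χ (j x.2.1) := fun x => rfl
  refine ⟨ψ, fun x => ?_⟩
  rw [hψ]
  obtain ⟨h1, h2⟩ := (mem_X1 _).mp x.2
  -- the first coordinate is a multiple of `m`
  obtain ⟨k, hk⟩ : ∃ k : ℕ, (x : XX m).1 = ((k * m : ℕ) : ZMod (m ^ 2)) := by
    have h3 : ((m * (x : XX m).1.val : ℕ) : ZMod (m ^ 2)) = 0 := by
      rw [Nat.cast_mul, ZMod.natCast_zmod_val, ← nsmul_eq_mul]
      exact h1
    rw [ZMod.natCast_eq_zero_iff] at h3
    have h3' : m * m ∣ m * (x : XX m).1.val := (pow_two m) ▸ h3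
    obtain ⟨k, hk⟩ := Nat.dvd_of_mul_dvd_mul_left hm0 h3'
    refine ⟨k, ?_⟩
    rw [mul_comm k m, ← hk, ZMod.natCast_zmod_val]
  have h3 : x = k • z + j (x : XX m).2.1 := by
    apply Subtype.ext
    change (x : XX m) = k • ((((m : ℕ) : ZMod (m ^ 2)), 0, 0) : XX m) + (0, (x : XX m).2.1, 0)
    refine Prod.ext ?_ (Prod.ext ?_ ?_)
    · rw [hk]; simp
    · simp
    · simp [h2]
  have h4 : zhom (m ^ 2) s hs2 (x : XX m).1 = k • χ z := by
    rw [hk, zhom_natCast, mul_smul, hs]
  rw [h4]
  conv_rhs => rw [h3, map_add, map_nsmul]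

theorem isClosed_X1 : IsClosed (X1 m : Set (XX m)) := by
  have h1 : IsClosed {x : XX m | m • x.1 = 0} :=
    isClosed_singleton.preimage (f := fun x : XX m => m • x.1)
      (continuous_of_discreteTopology.comp continuous_fst)
  have h2 : IsClosed {x : XX m | x.2.2 = 0} :=
    isClosed_eq (continuous_snd.comp continuous_snd) continuous_const
  exact h1.inter h2

/-- **Compact metrizable counterexamples.** -/
theorem result (m : ℕ) (hm : 2 ≤ m) :
    ∃ (X : Type) (_ : AddCommGroup X) (_ : TopologicalSpace X) (X₁ : AddSubgroup X),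
      IsTopologicalAddGroup X ∧ CompactSpace X ∧ TopologicalSpace.MetrizableSpace X ∧
      (∀ x : X, (m ^ 2) • x = 0) ∧ IsClosed (X₁ : Set X) ∧ DuallyEmbedded X₁ ∧
      TCharacterized (⊥ : AddSubgroup X₁) ∧ TCharacterized X₁ ∧
      ¬ TCharacterized (⊥ : AddSubgroup X) := by
  have : NeZero m := ⟨by omega⟩
  have : NeZero (m ^ 2) := ⟨pow_ne_zero 2 (NeZero.ne m)⟩
  refine ⟨XX m, inferInstance, inferInstance, X1 m, inferInstance, inferInstance, ?_, ?_,
    isClosed_X1, duallyEmbedded hm, tchar01 hm, tchar12 hm, not_tchar02 hm⟩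
  · exact TopologicalSpace.metrizableSpace_of_t3_secondCountable _
  · intro x
    have hx : (m * m) • x = 0 := by
      rw [mul_smul]
      refine Prod.ext (nsmul_m_fst x) (Prod.ext ?_ ?_)
      · ext j
        exact nsmul_zmod _
      · ext j
        exact nsmul_zmod _
    have h2 : m ^ 2 = m * m := pow_two m
    calc (m ^ 2) • x = (m * m) • x := congrArg (fun k : ℕ => k • x) h2
      _ = 0 := hx

end Pool.Agent.Results.MP_24a371_gt.CompactCounterexamples
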